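import Mathlib
import Pool.Agent.H95R2.BG.CertMath
import Pool.Agent.Y826.Z.Defs5
import Pool.Agent.Y826.ZC.CD

/-! Project Y826/Z: mathematical meaning of the certificate for `DHL[45,2]`: definitions and statements. -/

open Finset

namespace Pool.Agent.Y826.ZC

open Pool.Agent.H95R2.BG Pool.Agent.Y826.Z
open Pool.Agent.H95R2.BG.Cert (pk cf pkS nrm G1 G2 look)

/-- generating series of a weight, and of its first two moments -/
noncomputable def Ps (q : ℕ → ℕ) : PowerSeries ℕ := PowerSeries.mk q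
noncomputable def Ps1 (q : ℕ → ℕ) : PowerSeries ℕ := PowerSeries.mk (fun i => q i * ph i)
noncomputable def Ps2 (q : ℕ → ℕ) : PowerSeries ℕ := PowerSeries.mk (fun i => q i * (ph i * ph i))

/-- correlations -/
noncomputable def ap (n : ℕ) : ℕ := ∑ t ∈ range (16384 - n), g t * hh T0 (n + t)
noncomputable def am (n : ℕ) : ℕ := ∑ t ∈ range (16384 - n), g t * ph t * hh T1 (n + t)
noncomputable def bb (n : ℕ) : ℕ := ∑ t ∈ range (16384 - n), g t * hh T1 (n + t)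

/-- the sieve weight function -/
noncomputable def FF {K : ℕ} (c : Fin K → ℕ) : ℝ :=
  if ∑ j, c j < 16384 then
    (∏ j, (g (c j) : ℝ)) * ((hh T0 (∑ j, c j) : ℝ) - hh T1 (∑ j, c j) * ∑ j, (ph (c j) : ℝ))
  else 0

/-- the second factor of the marginals -/
noncomputable def xi {K : ℕ} (c : Fin K → ℕ) : ℝ :=
  (ap (∑ j, c j) : ℝ) - am (∑ j, c j) - bb (∑ j, c j) * ∑ j, (ph (c j) : ℝ)

/-- the quadratic form of a weight `q` at the radius `n` -/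
noncomputable def XQ (q : ℕ → ℕ) (n : ℕ) : ℝ :=
  ((ap n : ℝ) - am n) ^ 2 * (cf (Ps q ^ 44) n : ℝ) -
    2 * ((ap n : ℝ) - am n) * bb n * (cf (G1 44 (Ps q) (Ps1 q)) n : ℝ) +
    (bb n : ℝ) ^ 2 * (cf (G2 44 (Ps q) (Ps1 q) (Ps2 q)) n : ℝ)

/-- weights of the good and of the bad cells, as functions of `n = ∑ c_j` -/
noncomputable def wG (n : ℕ) : ℝ := ((wt GP n : ℝ) - wt GN n) / 1048576
noncomputable def wB (n : ℕ) : ℝ := ((wt BP n : ℝ) - wt BN n) / 1048576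

open Classical in
/-- the cells -/
noncomputable def AA : Finset (Fin 44 → ℕ) :=
  (Box 44 16384).filter (fun c => ∑ j, c j < 16384 ∧ ∀ j, c j < 10030)

open Classical in
/-- effective radius -/
noncomputable def rho (c : Fin 44 → ℕ) : ℕ := if Gd2 15083 c then rad c else rad c + 640

open Classical in
noncomputable def WW (c : Fin 44 → ℕ) : ℝ := if Gd2 15083 c then wG (∑ j, c j) else wB (∑ j, c j)

/-- the multipliers: partial sums `M(j) = look TM 32 j / 1024`, thresholds `32 l` -/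
noncomputable def mu (l : Fin 52) : ℝ :=
  ((look TM 32 l : ℝ) - (if (l : ℕ) = 0 then 0 else (look TM 32 (l - 1) : ℝ))) / 1024

/-- a bad event: the coordinates `< X` are small in total -/
def Evt (X nf : ℕ) (c : Fin 44 → ℕ) : Prop := (∑ j, if c j < X then c j + 1 else 0) ≤ nf

/-! ### Statements of the tasks -/

/-- task KA: meaning of the packed computations -/
def S_KA : Prop :=
  (∀ q : ℕ → ℕ, (∀ i, i < 16384 → q i ≤ g i * g i + 1) → ∀ T T' : ℕ,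
    LL q T T' = ∑ n ∈ range 16384, leafK T T' n (cf (Ps q ^ 44) n) (cf (G1 44 (Ps q) (Ps1 q)) n)
      (cf (G2 44 (Ps q) (Ps1 q) (Ps2 q)) n) (ap n) (am n) (bb n)) ∧
  PS = ∑ n ∈ range 16384, (hh T0 n * hh T0 n * cf (Ps q0 ^ 45) n +
    hh T1 n * hh T1 n * cf (G2 45 (Ps q0) (Ps1 q0) (Ps2 q0)) n) ∧
  MS = ∑ n ∈ range 16384, 2 * (hh T0 n * hh T1 n) * cf (G1 45 (Ps q0) (Ps1 q0)) n

/-- task KB: the box sums -/
def S_KB : Prop :=
  (∀ c : Fin 45 → ℕ, FF c ≠ 0 → rad c ≤ 16427 + 1) ∧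
  (∑ c ∈ Box 45 16384, FF c ^ 2 =
    ∑ n ∈ range 16384, ((hh T0 n : ℝ) ^ 2 * (cf (Ps q0 ^ 45) n : ℝ) +
      (hh T1 n : ℝ) ^ 2 * (cf (G2 45 (Ps q0) (Ps1 q0) (Ps2 q0)) n : ℝ) -
      2 * ((hh T0 n : ℝ) * hh T1 n) * (cf (G1 45 (Ps q0) (Ps1 q0)) n : ℝ))) ∧
  (∀ (i : Fin 45) (c : Fin 44 → ℕ), c ∈ Box 44 16384 → UU 16384 FF i c ≠ 0 → c ∈ AA) ∧
  (∀ (i : Fin 45) (c : Fin 44 → ℕ), ∑ j, c j < 16384 → UU 16384 FF i c = (∏ j, (g (c j) : ℝ)) * xi c) ∧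
  (∀ (q : ℕ → ℕ) (w : ℕ → ℝ),
    ∑ c ∈ Box 44 16384, (if ∑ j, c j < 16384 then w (∑ j, c j) * ((∏ j, (q (c j) : ℝ)) * xi c ^ 2) else 0) =
      ∑ n ∈ range 16384, w n * XQ q n)

/-- task KC: the conditions on the weights (`N1 = 15083`, `R = 16427`, `L = 15403`, `Dm = 1664`, `P = 640`) -/
def S_KC : Prop :=
  (∀ l, 0 ≤ mu l) ∧
  (∀ c ∈ AA, rad c ≤ 16427) ∧
  (∀ c ∈ AA, rho c ≤ 15403 + 1664) ∧
  (∀ c ∈ AA, rho c + 1664 ≤ 15403 → WW c ≤ 1) ∧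
  (∀ c ∈ AA, 15403 < rho c + 1664 → rho c ≤ 15403 →
    WW c ≤ 1 - 1 / (1 + 4 / (2 + (rad c : ℝ) / (15083 : ℕ)) *
      ∑ l : Fin 52, if 32 * (l : ℕ) ≤ 15403 - rho c then mu l else 0)) ∧
  (∀ c ∈ AA, 15403 < rho c →
    WW c ≤ - (4 * (∑ l : Fin 52, if 32 * (l : ℕ) < rho c - 15403 then mu l else 0) /
      (2 - (rad c : ℝ) / (15083 : ℕ)))) ∧
  (∀ n, n < 16384 → wG n - wB n = (wt TD n : ℝ) / 1048576)

/-- task KD: the events -/
def S_KD : Prop :=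
  (∀ c ∈ AA, ¬ Gd2 15083 c → Evt 60 52 c ∨ Evt 150 497 c ∨ Evt 226 651 c ∨ Evt 533 1259 c ∨
    Evt 1352 1950 c ∨ Evt 2043 2417 c ∨ Evt 2512 2883 c ∨ Evt 5000 3401 c) ∧
  (∀ a X nf : ℕ, a < 2048 → ∀ c : Fin 44 → ℕ, Evt X nf c →
    (∏ j, ((g (c j) * g (c j) : ℕ) : ℝ)) * ((a : ℝ) / 2048) ^ nf ≤ ∏ j, (vw a X (c j) : ℝ)) ∧
  (∀ a X : ℕ, a < 2048 → ∀ i, vw a X i ≤ g i * g i + 1)

/-- task KE: the final inequality -/
def S_KE : Prop :=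
  4 * ((15083 : ℕ) : ℝ) * ∑ c ∈ Box 45 16384, FF c ^ 2 < ∑ i : Fin 45, ∑ c ∈ AA, WW c * UU 16384 FF i c ^ 2

/-- `DHL[45,2]` with a count and a residue class -/
def Dhl45Count : Prop := ∀ (h : Fin 45 → ℕ), Admissible h → ∀ (Q b : ℕ), Squarefree Q →
  (∀ i, (b + h i).Coprime Q) → ∀ ε : ℝ, 0 < ε → ∀ᶠ X : ℝ in Filter.atTop, X ^ (1 - ε) ≤ ((goodN h Q b X).card : ℝ)

end Pool.Agent.Y826.ZC
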