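import Pool.Agent.Y826.ZC.CD

/-! Project Y826/Z: the kernel computation, event 4. -/

namespace Pool.Agent.Y826.ZC

theorem chkE4 : Nat.ble (LL (vw 2030 1352) TD 0) (Nat.add (LL (vw 2030 1352) 0 TD) B4) = true := by decide +kernel

theorem chkC4 : Nat.ble (Nat.mul B4 (Nat.pow 2048 1950)) (Nat.mul C4 (Nat.pow 2030 1950)) = true := by decide +kernel

end Pool.Agent.Y826.ZC
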