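import Pool.Agent.Y826.ZC.CD

/-! Project Y826/Z: the kernel computation, event 7. -/

namespace Pool.Agent.Y826.ZC

theorem chkE7 : Nat.ble (LL (vw 2041 5000) TD 0) (Nat.add (LL (vw 2041 5000) 0 TD) B7) = true := by decide +kernel

theorem chkC7 : Nat.ble (Nat.mul B7 (Nat.pow 2048 3401)) (Nat.mul C7 (Nat.pow 2041 3401)) = true := by decide +kernel

end Pool.Agent.Y826.ZC
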