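import Mathlib
import Pool.Agent.Y826.ZC.CM
import Pool.Agent.Y826.ZC.CK
import Pool.Agent.Y826.ZC.CK0
import Pool.Agent.Y826.ZC.CK1
import Pool.Agent.Y826.ZC.CK2
import Pool.Agent.Y826.ZC.CK3
import Pool.Agent.Y826.ZC.CK4
import Pool.Agent.Y826.ZC.CK5
import Pool.Agent.Y826.ZC.CK6
import Pool.Agent.Y826.ZC.CK7

/-! Project Y826/Z, task KE (helper812 for helper826): the final inequality of the certificate for `DHL[45,2]`. -/

set_option autoImplicit false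

open Finset

namespace Pool.Agent.Y826.ZC

open Pool.Agent.H95R2.BG Pool.Agent.Y826.Z
open Pool.Agent.H95R2.BG.Cert (pk cf pkS nrm G1 G2 look)

/-- first projection; it only serves to keep the kernel from evaluating closed terms -/
abbrev KEpr (a _x : ℕ) : ℕ := a

theorem KElhs_eq (x : ℕ) : lhs = Nat.add (Nat.mul 63262687232 (KEpr PS x))
    (Nat.mul 45 (Nat.add (KEpr (LL q0 GN GP) x) (KEpr CT x))) := rfl

theorem KErhs_eq (x : ℕ) : rhs = Nat.add (Nat.mul 45 (KEpr (LL q0 GP GN) x))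
    (Nat.mul 63262687232 (KEpr MS x)) := rfl

theorem KECT_eq (x : ℕ) : CT = Nat.add (Nat.add (Nat.add (Nat.add (Nat.add (Nat.add (Nat.add (KEpr C0 x) (KEpr C1 x))
    (KEpr C2 x)) (KEpr C3 x)) (KEpr C4 x)) (KEpr C5 x)) (KEpr C6 x)) (KEpr C7 x) := rfl

theorem KElt (a b : ℕ) (h : Nat.ble (Nat.add a 1) b = true) : a < b := Nat.le_of_ble_eq_true h

theorem KEcast (a b P R C L M : ℕ) (ha : a = Nat.add (Nat.mul 63262687232 P) (Nat.mul 45 (Nat.add R C)))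
    (hb : b = Nat.add (Nat.mul 45 L) (Nat.mul 63262687232 M)) (h : a < b) :
    (63262687232 : ℝ) * P + 45 * (R + C) < 45 * L + 63262687232 * M := by
  have h' : 63262687232 * P + 45 * (R + C) < 45 * L + 63262687232 * M := by
    rw [ha, hb] at h
    exact h
  exact_mod_cast h'

theorem KEmain : (63262687232 : ℝ) * (PS : ℕ) + 45 * ((LL q0 GN GP : ℕ) + (CT : ℕ)) <
    45 * (LL q0 GP GN : ℕ) + 63262687232 * (MS : ℕ) :=
  KEcast lhs rhs (KEpr PS 0) (KEpr (LL q0 GN GP) 0) (KEpr CT 0) (KEpr (LL q0 GP GN) 0) (KEpr MS 0)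
    (KElhs_eq 0) (KErhs_eq 0) (KElt lhs rhs chk)

theorem KEcastC (C C0 C1 C2 C3 C4 C5 C6 C7 : ℕ) (h : C = Nat.add (Nat.add (Nat.add (Nat.add (Nat.add (Nat.add
    (Nat.add C0 C1) C2) C3) C4) C5) C6) C7) :
    (C : ℝ) = C0 + C1 + C2 + C3 + C4 + C5 + C6 + C7 := by
  have h' : C = C0 + C1 + C2 + C3 + C4 + C5 + C6 + C7 := h
  exact_mod_cast h'

theorem KECT : ((CT : ℕ) : ℝ) = (C0 : ℕ) + (C1 : ℕ) + (C2 : ℕ) + (C3 : ℕ) + (C4 : ℕ) + (C5 : ℕ) + (C6 : ℕ) + (C7 : ℕ) :=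
  KEcastC CT (KEpr C0 0) (KEpr C1 0) (KEpr C2 0) (KEpr C3 0) (KEpr C4 0) (KEpr C5 0) (KEpr C6 0) (KEpr C7 0)
    (KECT_eq 0)

theorem KEcE (x y z : ℕ) (h : Nat.ble x (Nat.add y z) = true) : (x : ℝ) - y ≤ z := by
  have h' : x ≤ y + z := Nat.le_of_ble_eq_true h
  have h'' : (x : ℝ) ≤ y + z := by exact_mod_cast h'
  linarith

theorem KEcC (b c a n : ℕ) (h : Nat.ble (Nat.mul b (Nat.pow 2048 n)) (Nat.mul c (Nat.pow a n)) = true) :
    (b : ℝ) * 2048 ^ n ≤ c * (a : ℝ) ^ n := by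
  have h' : b * 2048 ^ n ≤ c * a ^ n := Nat.le_of_ble_eq_true h
  exact_mod_cast h'

/-! ### leaves -/

theorem KEleaf (T T' n x1 x2 x3 y1 y2 y3 : ℕ) :
    (leafK T T' n x1 x2 x3 y1 y2 y3 : ℝ) - (leafK T' T n x1 x2 x3 y1 y2 y3 : ℝ) =
      ((wt T n : ℝ) - wt T' n) *
        (((y1 : ℝ) - y2) ^ 2 * x1 - 2 * ((y1 : ℝ) - y2) * y3 * x2 + (y3 : ℝ) ^ 2 * x3) := by
  have h : ∀ a' b', a' = wt T n → b' = wt T' n →
      (leafK T T' n x1 x2 x3 y1 y2 y3 : ℕ) = a' * ((y1 * y1 + y2 * y2) * x1 + (2 * (y2 * y3) * x2 + y3 * y3 * x3)) +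
        b' * (2 * (y1 * y2 * x1 + y1 * y3 * x2)) ∧
      (leafK T' T n x1 x2 x3 y1 y2 y3 : ℕ) = b' * ((y1 * y1 + y2 * y2) * x1 + (2 * (y2 * y3) * x2 + y3 * y3 * x3)) +
        a' * (2 * (y1 * y2 * x1 + y1 * y3 * x2)) := by
    intro a' b' h1 h2
    subst h1 h2
    exact ⟨rfl, rfl⟩
  obtain ⟨h1, h2⟩ := h _ _ rfl rfl
  rw [h1, h2]
  push_cast
  ring

theorem wt_zero (n : ℕ) : wt 0 n = 0 := by
  have h : ∀ a b : ℕ, Nat.land (Nat.shiftRight 0 a) b = 0 := by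
    intro a b
    change (0 >>> a) &&& b = 0
    rw [Nat.zero_shiftRight, Nat.zero_and]
  exact h _ _

/-- the meaning of a difference of two packed sums -/
theorem LL_sub (q : ℕ → ℕ) (hq : ∀ T T' : ℕ,
    LL q T T' = ∑ n ∈ range 16384, leafK T T' n (cf (Ps q ^ 44) n) (cf (G1 44 (Ps q) (Ps1 q)) n)
      (cf (G2 44 (Ps q) (Ps1 q) (Ps2 q)) n) (ap n) (am n) (bb n)) (T T' : ℕ) :
    ((LL q T T' : ℕ) : ℝ) - (LL q T' T : ℕ) =
      ∑ n ∈ range 16384, ((wt T n : ℝ) - wt T' n) * XQ q n := by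
  rw [hq T T', hq T' T, Nat.cast_sum, Nat.cast_sum, ← Finset.sum_sub_distrib]
  refine Finset.sum_congr rfl fun n _ => ?_
  rw [KEleaf]
  rfl

theorem ke_g_zero (c : ℕ) (h : 10030 ≤ c) : g c = 0 := by
  have h1 : Nat.ble (Nat.add c 1) 10030 = false := by
    rw [Bool.eq_false_iff]
    intro h2
    have h3 : c + 1 ≤ 10030 := Nat.le_of_ble_eq_true h2
    omega
  unfold g
  rw [h1]
  rfl

theorem mem_AA (c : Fin 44 → ℕ) : c ∈ AA ↔ c ∈ Box 44 16384 ∧ ∑ j, c j < 16384 ∧ ∀ j, c j < 10030 := by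
  unfold AA
  rw [Finset.mem_filter]

attribute [local irreducible] AA Box LL

theorem AA_sub : AA ⊆ Box 44 16384 := fun c hc => ((mem_AA c).1 hc).1

/-- the sum over the cells with a weight depending only on the radius -/
theorem sum_AA (hB : S_KB) (w : ℕ → ℝ) (i : Fin 45) :
    ∑ c ∈ AA, w (∑ j, c j) * UU 16384 FF i c ^ 2 = ∑ n ∈ range 16384, w n * XQ q0 n := by
  classical
  rw [← hB.2.2.2.2 q0 w]
  rw [← Finset.sum_subset AA_sub]
  · refine Finset.sum_congr rfl fun c hc => ?_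
    have hc1 : ∑ j, c j < 16384 := ((mem_AA c).1 hc).2.1
    rw [if_pos hc1, hB.2.2.2.1 i c hc1, mul_pow, ← Finset.prod_pow]
    congr 2
    refine Finset.prod_congr rfl fun j _ => ?_
    have e : q0 (c j) = g (c j) * g (c j) := rfl
    rw [e, Nat.cast_mul, sq]
  · intro c hc hcn
    by_cases h1 : ∑ j, c j < 16384
    · rw [if_pos h1]
      have h2 : ∃ j, 10030 ≤ c j := by
        by_contra hno
        push Not at hno
        exact hcn ((mem_AA c).2 ⟨hc, h1, hno⟩)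
      obtain ⟨j, hj⟩ := h2
      have e : q0 (c j) = g (c j) * g (c j) := rfl
      have h3 : ∏ j, (q0 (c j) : ℝ) = 0 := by
        apply Finset.prod_eq_zero (Finset.mem_univ j)
        rw [e, ke_g_zero _ hj]
        norm_num
      rw [h3]
      ring
    · rw [if_neg h1]

/-- the contribution of an event -/
theorem event_bound (hA : S_KA) (hB : S_KB) (hD : S_KD) (a X nf B C : ℕ) (ha : 0 < a) (ha2 : a < 2048)
    (hE : ((LL (vw a X) TD 0 : ℕ) : ℝ) - (LL (vw a X) 0 TD : ℕ) ≤ B) (hC : (B : ℝ) * 2048 ^ nf ≤ C * (a : ℝ) ^ nf)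
    (i : Fin 45) (s : Finset (Fin 44 → ℕ)) (hs : s ⊆ AA) (hs2 : ∀ c ∈ s, Evt X nf c) :
    ∑ c ∈ s, (wt TD (∑ j, c j) : ℝ) * UU 16384 FF i c ^ 2 ≤ C := by
  classical
  have ha0 : (0 : ℝ) < a := by exact_mod_cast ha
  have hpow : (0 : ℝ) < (a : ℝ) ^ nf := pow_pos ha0 _
  have h1 : ((LL (vw a X) TD 0 : ℕ) : ℝ) - (LL (vw a X) 0 TD : ℕ) =
      ∑ n ∈ range 16384, (wt TD n : ℝ) * XQ (vw a X) n := by
    rw [LL_sub (vw a X) (hA.1 (vw a X) (fun i _ => hD.2.2 a X ha2 i)) TD 0]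
    refine Finset.sum_congr rfl fun n _ => ?_
    rw [wt_zero, Nat.cast_zero, sub_zero]
  have h2 : ∑ n ∈ range 16384, (wt TD n : ℝ) * XQ (vw a X) n =
      ∑ c ∈ Box 44 16384, (if ∑ j, c j < 16384 then (wt TD (∑ j, c j) : ℝ) *
        ((∏ j, (vw a X (c j) : ℝ)) * xi c ^ 2) else 0) :=
    (hB.2.2.2.2 (vw a X) (fun n => (wt TD n : ℝ))).symm
  have hterm : ∀ c ∈ Box 44 16384, 0 ≤ (if ∑ j, c j < 16384 then (wt TD (∑ j, c j) : ℝ) *
        ((∏ j, (vw a X (c j) : ℝ)) * xi c ^ 2) else 0) := by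
    intro c _
    split_ifs
    · exact mul_nonneg (Nat.cast_nonneg _) (mul_nonneg (Finset.prod_nonneg fun j _ => Nat.cast_nonneg _) (sq_nonneg _))
    · exact le_rfl
  have h3 : ∑ c ∈ s, (wt TD (∑ j, c j) : ℝ) * ((∏ j, (vw a X (c j) : ℝ)) * xi c ^ 2) ≤ B := by
    calc ∑ c ∈ s, (wt TD (∑ j, c j) : ℝ) * ((∏ j, (vw a X (c j) : ℝ)) * xi c ^ 2)
        = ∑ c ∈ s, (if ∑ j, c j < 16384 then (wt TD (∑ j, c j) : ℝ) *
            ((∏ j, (vw a X (c j) : ℝ)) * xi c ^ 2) else 0) := by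
          refine Finset.sum_congr rfl fun c hc => ?_
          rw [if_pos ((mem_AA c).1 (hs hc)).2.1]
      _ ≤ ∑ c ∈ Box 44 16384, (if ∑ j, c j < 16384 then (wt TD (∑ j, c j) : ℝ) *
            ((∏ j, (vw a X (c j) : ℝ)) * xi c ^ 2) else 0) :=
          Finset.sum_le_sum_of_subset_of_nonneg (hs.trans AA_sub) (fun c hc _ => hterm c hc)
      _ ≤ B := by rw [← h2, ← h1]; exact hE
  have h4 : ∀ c ∈ s, (wt TD (∑ j, c j) : ℝ) * UU 16384 FF i c ^ 2 * ((a : ℝ) / 2048) ^ nf ≤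
      (wt TD (∑ j, c j) : ℝ) * ((∏ j, (vw a X (c j) : ℝ)) * xi c ^ 2) := by
    intro c hc
    have hc1 : ∑ j, c j < 16384 := ((mem_AA c).1 (hs hc)).2.1
    have h5 := hD.2.1 a X nf ha2 c (hs2 c hc)
    rw [hB.2.2.2.1 i c hc1, mul_pow, ← Finset.prod_pow, mul_assoc]
    apply mul_le_mul_of_nonneg_left _ (Nat.cast_nonneg _)
    have e : ∏ j, (g (c j) : ℝ) ^ 2 = ∏ j, ((g (c j) * g (c j) : ℕ) : ℝ) := by
      refine Finset.prod_congr rfl fun j _ => ?_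
      rw [Nat.cast_mul, sq]
    rw [e]
    calc (∏ j, ((g (c j) * g (c j) : ℕ) : ℝ)) * xi c ^ 2 * ((a : ℝ) / 2048) ^ nf
        = ((∏ j, ((g (c j) * g (c j) : ℕ) : ℝ)) * ((a : ℝ) / 2048) ^ nf) * xi c ^ 2 := by ring
      _ ≤ (∏ j, (vw a X (c j) : ℝ)) * xi c ^ 2 := mul_le_mul_of_nonneg_right h5 (sq_nonneg _)
  have h6 : (∑ c ∈ s, (wt TD (∑ j, c j) : ℝ) * UU 16384 FF i c ^ 2) * ((a : ℝ) / 2048) ^ nf ≤ B := by
    rw [Finset.sum_mul]
    exact (Finset.sum_le_sum h4).trans h3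
  rw [div_pow, mul_div_assoc', div_le_iff₀ (by positivity)] at h6
  exact le_of_mul_le_mul_right (h6.trans hC) hpow

theorem KEev (a X B : ℕ) (h : Nat.ble (LL (vw a X) TD 0) (Nat.add (LL (vw a X) 0 TD) B) = true) :
    ((LL (vw a X) TD 0 : ℕ) : ℝ) - (LL (vw a X) 0 TD : ℕ) ≤ B := KEcE _ _ _ h

theorem KEhE0 : ((LL (vw 1792 60) TD 0 : ℕ) : ℝ) - (LL (vw 1792 60) 0 TD : ℕ) ≤ (B0 : ℕ) := by
  refine KEev 1792 60 B0 ?_
  with_reducible exact chkE0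

theorem KEhC0 : ((B0 : ℕ) : ℝ) * 2048 ^ 52 ≤ ((C0 : ℕ) : ℝ) * ((1792 : ℕ) : ℝ) ^ 52 := by
  refine KEcC B0 C0 1792 52 ?_
  with_reducible exact chkC0

theorem KEhE1 : ((LL (vw 1998 150) TD 0 : ℕ) : ℝ) - (LL (vw 1998 150) 0 TD : ℕ) ≤ (B1 : ℕ) := by
  refine KEev 1998 150 B1 ?_
  with_reducible exact chkE1

theorem KEhC1 : ((B1 : ℕ) : ℝ) * 2048 ^ 497 ≤ ((C1 : ℕ) : ℝ) * ((1998 : ℕ) : ℝ) ^ 497 := by
  refine KEcC B1 C1 1998 497 ?_
  with_reducible exact chkC1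

theorem KEhE2 : ((LL (vw 2000 226) TD 0 : ℕ) : ℝ) - (LL (vw 2000 226) 0 TD : ℕ) ≤ (B2 : ℕ) := by
  refine KEev 2000 226 B2 ?_
  with_reducible exact chkE2

theorem KEhC2 : ((B2 : ℕ) : ℝ) * 2048 ^ 651 ≤ ((C2 : ℕ) : ℝ) * ((2000 : ℕ) : ℝ) ^ 651 := by
  refine KEcC B2 C2 2000 651 ?_
  with_reducible exact chkC2

theorem KEhE3 : ((LL (vw 2020 533) TD 0 : ℕ) : ℝ) - (LL (vw 2020 533) 0 TD : ℕ) ≤ (B3 : ℕ) := by
  refine KEev 2020 533 B3 ?_
  with_reducible exact chkE3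

theorem KEhC3 : ((B3 : ℕ) : ℝ) * 2048 ^ 1259 ≤ ((C3 : ℕ) : ℝ) * ((2020 : ℕ) : ℝ) ^ 1259 := by
  refine KEcC B3 C3 2020 1259 ?_
  with_reducible exact chkC3

theorem KEhE4 : ((LL (vw 2030 1352) TD 0 : ℕ) : ℝ) - (LL (vw 2030 1352) 0 TD : ℕ) ≤ (B4 : ℕ) := by
  refine KEev 2030 1352 B4 ?_
  with_reducible exact chkE4

theorem KEhC4 : ((B4 : ℕ) : ℝ) * 2048 ^ 1950 ≤ ((C4 : ℕ) : ℝ) * ((2030 : ℕ) : ℝ) ^ 1950 := by
  refine KEcC B4 C4 2030 1950 ?_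
  with_reducible exact chkC4

theorem KEhE5 : ((LL (vw 2035 2043) TD 0 : ℕ) : ℝ) - (LL (vw 2035 2043) 0 TD : ℕ) ≤ (B5 : ℕ) := by
  refine KEev 2035 2043 B5 ?_
  with_reducible exact chkE5

theorem KEhC5 : ((B5 : ℕ) : ℝ) * 2048 ^ 2417 ≤ ((C5 : ℕ) : ℝ) * ((2035 : ℕ) : ℝ) ^ 2417 := by
  refine KEcC B5 C5 2035 2417 ?_
  with_reducible exact chkC5

theorem KEhE6 : ((LL (vw 2038 2512) TD 0 : ℕ) : ℝ) - (LL (vw 2038 2512) 0 TD : ℕ) ≤ (B6 : ℕ) := by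
  refine KEev 2038 2512 B6 ?_
  with_reducible exact chkE6

theorem KEhC6 : ((B6 : ℕ) : ℝ) * 2048 ^ 2883 ≤ ((C6 : ℕ) : ℝ) * ((2038 : ℕ) : ℝ) ^ 2883 := by
  refine KEcC B6 C6 2038 2883 ?_
  with_reducible exact chkC6

theorem KEhE7 : ((LL (vw 2041 5000) TD 0 : ℕ) : ℝ) - (LL (vw 2041 5000) 0 TD : ℕ) ≤ (B7 : ℕ) := by
  refine KEev 2041 5000 B7 ?_
  with_reducible exact chkE7

theorem KEhC7 : ((B7 : ℕ) : ℝ) * 2048 ^ 3401 ≤ ((C7 : ℕ) : ℝ) * ((2041 : ℕ) : ℝ) ^ 3401 := by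
  refine KEcC B7 C7 2041 3401 ?_
  with_reducible exact chkC7

/-- the contribution of the bad cells -/
theorem bad_bound (hA : S_KA) (hB : S_KB) (hD : S_KD) (i : Fin 45) (s : Finset (Fin 44 → ℕ)) (hs : s ⊆ AA)
    (hs2 : ∀ c ∈ s, ¬ Gd2 15083 c) :
    ∑ c ∈ s, (wt TD (∑ j, c j) : ℝ) * UU 16384 FF i c ^ 2 ≤ ((CT : ℕ) : ℝ) := by
  classical
  have hterm : ∀ c : Fin 44 → ℕ, 0 ≤ (wt TD (∑ j, c j) : ℝ) * UU 16384 FF i c ^ 2 :=
    fun c => mul_nonneg (Nat.cast_nonneg _) (sq_nonneg _)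
  have hev : ∀ (X nf : ℕ), (∑ c ∈ s, if Evt X nf c then (wt TD (∑ j, c j) : ℝ) * UU 16384 FF i c ^ 2 else 0) =
      ∑ c ∈ s.filter (fun c => Evt X nf c), (wt TD (∑ j, c j) : ℝ) * UU 16384 FF i c ^ 2 := fun X nf =>
    (Finset.sum_filter _ _).symm
  have h0 := event_bound hA hB hD 1792 60 52 B0 C0 (by norm_num) (by norm_num) KEhE0 KEhC0 i (s.filter (fun c => Evt 60 52 c)) ((Finset.filter_subset _ _).trans hs)
    (fun c hc => (Finset.mem_filter.1 hc).2)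
  have h1 := event_bound hA hB hD 1998 150 497 B1 C1 (by norm_num) (by norm_num) KEhE1 KEhC1 i (s.filter (fun c => Evt 150 497 c)) ((Finset.filter_subset _ _).trans hs)
    (fun c hc => (Finset.mem_filter.1 hc).2)
  have h2 := event_bound hA hB hD 2000 226 651 B2 C2 (by norm_num) (by norm_num) KEhE2 KEhC2 i (s.filter (fun c => Evt 226 651 c)) ((Finset.filter_subset _ _).trans hs)
    (fun c hc => (Finset.mem_filter.1 hc).2)
  have h3 := event_bound hA hB hD 2020 533 1259 B3 C3 (by norm_num) (by norm_num) KEhE3 KEhC3 i (s.filter (fun c => Evt 533 1259 c)) ((Finset.filter_subset _ _).trans hs)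
    (fun c hc => (Finset.mem_filter.1 hc).2)
  have h4 := event_bound hA hB hD 2030 1352 1950 B4 C4 (by norm_num) (by norm_num) KEhE4 KEhC4 i (s.filter (fun c => Evt 1352 1950 c)) ((Finset.filter_subset _ _).trans hs)
    (fun c hc => (Finset.mem_filter.1 hc).2)
  have h5 := event_bound hA hB hD 2035 2043 2417 B5 C5 (by norm_num) (by norm_num) KEhE5 KEhC5 i (s.filter (fun c => Evt 2043 2417 c)) ((Finset.filter_subset _ _).trans hs)
    (fun c hc => (Finset.mem_filter.1 hc).2)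
  have h6 := event_bound hA hB hD 2038 2512 2883 B6 C6 (by norm_num) (by norm_num) KEhE6 KEhC6 i (s.filter (fun c => Evt 2512 2883 c)) ((Finset.filter_subset _ _).trans hs)
    (fun c hc => (Finset.mem_filter.1 hc).2)
  have h7 := event_bound hA hB hD 2041 5000 3401 B7 C7 (by norm_num) (by norm_num) KEhE7 KEhC7 i (s.filter (fun c => Evt 5000 3401 c)) ((Finset.filter_subset _ _).trans hs)
    (fun c hc => (Finset.mem_filter.1 hc).2)
  have hpt : ∀ c ∈ s, (wt TD (∑ j, c j) : ℝ) * UU 16384 FF i c ^ 2 ≤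
      (if Evt 60 52 c then (wt TD (∑ j, c j) : ℝ) * UU 16384 FF i c ^ 2 else 0) +
      (if Evt 150 497 c then (wt TD (∑ j, c j) : ℝ) * UU 16384 FF i c ^ 2 else 0) +
      (if Evt 226 651 c then (wt TD (∑ j, c j) : ℝ) * UU 16384 FF i c ^ 2 else 0) +
      (if Evt 533 1259 c then (wt TD (∑ j, c j) : ℝ) * UU 16384 FF i c ^ 2 else 0) +
      (if Evt 1352 1950 c then (wt TD (∑ j, c j) : ℝ) * UU 16384 FF i c ^ 2 else 0) +
      (if Evt 2043 2417 c then (wt TD (∑ j, c j) : ℝ) * UU 16384 FF i c ^ 2 else 0) +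
      (if Evt 2512 2883 c then (wt TD (∑ j, c j) : ℝ) * UU 16384 FF i c ^ 2 else 0) +
      (if Evt 5000 3401 c then (wt TD (∑ j, c j) : ℝ) * UU 16384 FF i c ^ 2 else 0) := by
    intro c hc
    have hx := hterm c
    generalize (wt TD (∑ j, c j) : ℝ) * UU 16384 FF i c ^ 2 = x at hx ⊢
    have hif : ∀ (p : Prop) [Decidable p], 0 ≤ (if p then x else 0) := by
      intro p _
      split_ifs
      · exact hx
      · exact le_rfl
    have q0 := hif (Evt 60 52 c)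
    have q1 := hif (Evt 150 497 c)
    have q2 := hif (Evt 226 651 c)
    have q3 := hif (Evt 533 1259 c)
    have q4 := hif (Evt 1352 1950 c)
    have q5 := hif (Evt 2043 2417 c)
    have q6 := hif (Evt 2512 2883 c)
    have q7 := hif (Evt 5000 3401 c)
    rcases hD.1 c (hs hc) (hs2 c hc) with h | h | h | h | h | h | h | h
    · rw [if_pos h] at q0 ⊢; linarith
    · rw [if_pos h] at q1 ⊢; linarith
    · rw [if_pos h] at q2 ⊢; linarith
    · rw [if_pos h] at q3 ⊢; linarith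
    · rw [if_pos h] at q4 ⊢; linarith
    · rw [if_pos h] at q5 ⊢; linarith
    · rw [if_pos h] at q6 ⊢; linarith
    · rw [if_pos h] at q7 ⊢; linarith
  have hsum := Finset.sum_le_sum hpt
  simp only [Finset.sum_add_distrib] at hsum
  rw [hev, hev, hev, hev, hev, hev, hev, hev] at hsum
  rw [KECT]
  linarith

/-- the sum over one marginal -/
theorem one_marginal (hA : S_KA) (hB : S_KB) (hC : S_KC) (hD : S_KD) (i : Fin 45) :
    ((LL q0 GP GN : ℕ) : ℝ) - (LL q0 GN GP : ℕ) - (CT : ℕ) ≤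
      1048576 * ∑ c ∈ AA, WW c * UU 16384 FF i c ^ 2 := by
  classical
  have hwd := hC.2.2.2.2.2.2
  have h1 : ((LL q0 GP GN : ℕ) : ℝ) - (LL q0 GN GP : ℕ) =
      1048576 * ∑ c ∈ AA, wG (∑ j, c j) * UU 16384 FF i c ^ 2 := by
    rw [LL_sub q0 (hA.1 q0 (fun i _ => Nat.le_succ _)) GP GN, sum_AA hB wG i, Finset.mul_sum]
    refine Finset.sum_congr rfl fun n _ => ?_
    unfold wG
    ring
  have h2 := bad_bound hA hB hD i (AA.filter (fun c => ¬ Gd2 15083 c)) (Finset.filter_subset _ _)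
    (fun c hc => (Finset.mem_filter.1 hc).2)
  have h3 : ∑ c ∈ AA, WW c * UU 16384 FF i c ^ 2 = ∑ c ∈ AA, wG (∑ j, c j) * UU 16384 FF i c ^ 2 -
      (∑ c ∈ AA.filter (fun c => ¬ Gd2 15083 c), (wt TD (∑ j, c j) : ℝ) * UU 16384 FF i c ^ 2) / 1048576 := by
    rw [Finset.sum_filter, Finset.sum_div, ← Finset.sum_sub_distrib]
    refine Finset.sum_congr rfl fun c hc => ?_
    have hn : ∑ j, c j < 16384 := ((mem_AA c).1 hc).2.1
    have hw := hwd _ hn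
    unfold WW
    by_cases hg : Gd2 15083 c
    · rw [if_pos hg, if_neg (not_not.2 hg)]
      ring
    · rw [if_neg hg, if_pos hg]
      have e : wB (∑ j, c j) = wG (∑ j, c j) - (wt TD (∑ j, c j) : ℝ) / 1048576 := by
        rw [← hw]; ring
      rw [e]
      ring
  rw [h3, mul_sub, ← h1]
  have e : (1048576 : ℝ) * ((∑ c ∈ AA.filter (fun c => ¬ Gd2 15083 c),
      (wt TD (∑ j, c j) : ℝ) * UU 16384 FF i c ^ 2) / 1048576) =
      ∑ c ∈ AA.filter (fun c => ¬ Gd2 15083 c), (wt TD (∑ j, c j) : ℝ) * UU 16384 FF i c ^ 2 := by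
    field_simp
  rw [e]
  linarith

theorem KEF (hA : S_KA) (hB : S_KB) : ∑ c ∈ Box 45 16384, FF c ^ 2 = ((PS : ℕ) : ℝ) - (MS : ℕ) := by
  have e1 : ((PS : ℕ) : ℝ) = _ := congrArg (Nat.cast : ℕ → ℝ) hA.2.1
  have e2 : ((MS : ℕ) : ℝ) = _ := congrArg (Nat.cast : ℕ → ℝ) hA.2.2
  rw [e1, e2, hB.2.1, Nat.cast_sum, Nat.cast_sum, ← Finset.sum_sub_distrib]
  apply Finset.sum_congr rfl
  intro n _
  push_cast
  ring

theorem KEfin (S : ℝ) (U : Fin 45 → ℝ) (P M L R C : ℝ) (hS : S = P - M) (hU : ∀ i, L - R - C ≤ 1048576 * U i)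
    (h : 63262687232 * P + 45 * (R + C) < 45 * L + 63262687232 * M) :
    4 * ((15083 : ℕ) : ℝ) * S < ∑ i : Fin 45, U i := by
  have h1 : ∑ _i : Fin 45, (L - R - C) ≤ ∑ i : Fin 45, 1048576 * U i := Finset.sum_le_sum fun i _ => hU i
  rw [Finset.sum_const, Finset.card_univ, Fintype.card_fin, nsmul_eq_mul, ← Finset.mul_sum] at h1
  rw [hS]
  push_cast at h1 ⊢
  linarith

/-- task KE: the final inequality -/
theorem ke (hA : S_KA) (hB : S_KB) (hC : S_KC) (hD : S_KD) : S_KE :=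
  KEfin _ (fun i => ∑ c ∈ AA, WW c * UU 16384 FF i c ^ 2) _ _ _ _ _ (KEF hA hB)
    (fun i => one_marginal hA hB hC hD i) KEmain

end Pool.Agent.Y826.ZC

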