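import Mathlib
import Pool.Agent.Y826.ZC.Dhl
import Pool.Agent.Y141.ZC.KAm
import Pool.Agent.Y333.ZC.KB
import Pool.Agent.Y93.ZC.KC
import Pool.Agent.Y68.ZC.KD
import Pool.Agent.Y826.ZC.KE

/-! Project Y826/Z: `DHL[45,2]` with a count and a residue class, unconditionally. -/

open Finset Filter

namespace Pool.Agent.Y826.ZC

theorem s_ke : S_KE := ke Pool.Agent.Y141.ZC.ka kb Pool.Agent.Y93.ZC.kc Pool.Agent.Y68.ZC.kd

/-- `DHL[45,2]` -/
theorem dhl45 : Dhl45Count := dhl45_of kb Pool.Agent.Y93.ZC.kc s_ke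

end Pool.Agent.Y826.ZC
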