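import Mathlib
import Pool.Agent.Y826.ZC.Final
import Pool.Agent.Y826.ZC.Con45
import Pool.Agent.Y826.ZC.Gap45

/-! Project Y826/Z: consequences of `DHL[45,2]`, unconditional. -/

open Finset Filter

namespace Pool.Agent.Y826.ZC

open Pool.Agent.H95R2.BG (Admissible TwoPrimes goodN)

/-- two primes in every admissible 45-tuple -/
theorem two45 (h : Fin 45 → ℕ) (hadm : Admissible h) : TwoPrimes h := two45_of_count dhl45 h hadm

open Classical in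
/-- at least `x^(1-ε)` of the `n ≤ x` have two primes among `n + a i` and no other prime in the interval
spanned -/
theorem dhl45_consecutive (a : Fin 45 → ℤ) (hinj : Function.Injective a)
    (hadm : ∀ p : ℕ, p.Prime → ∃ r : ℤ, ∀ i, ¬ (p : ℤ) ∣ r + a i) (ε : ℝ) (hε : 0 < ε) :
    ∀ᶠ x : ℝ in atTop, x ^ (1 - ε) ≤ (((Icc 1 ⌊x⌋₊).filter (fun n : ℕ =>
      (∃ i j, i ≠ j ∧ ∃ p q : ℕ, p.Prime ∧ q.Prime ∧ (p : ℤ) = n + a i ∧ (q : ℤ) = n + a j) ∧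
      ∀ p : ℕ, p.Prime → (∃ i j, (n : ℤ) + a i ≤ p ∧ (p : ℤ) ≤ n + a j) → ∃ i, (p : ℤ) = n + a i)).card : ℝ) :=
  consecutive45_of_count dhl45 a hinj hadm ε hε

/-- `H₁ ≤ 212` -/
theorem gaps212_infinite : {n : ℕ | Nat.nth Nat.Prime (n + 1) - Nat.nth Nat.Prime n ≤ 212}.Infinite :=
  gaps212_of_count_infinite dhl45

/-- `H₁ ≤ 212` -/
theorem liminf212 :
    Filter.liminf (fun n => ((Nat.nth Nat.Prime (n + 1) : ℝ) - (Nat.nth Nat.Prime n : ℝ))) Filter.atTop ≤ 212 :=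
  liminf212_of_count dhl45

/-- some difference `≤ 212` occurs infinitely often -/
theorem diff212 : ∃ d : ℕ, 1 ≤ d ∧ d ≤ 212 ∧ {p : ℕ | p.Prime ∧ (p + d).Prime}.Infinite :=
  diff212_of_count dhl45

open Classical in
/-- many gaps at most 212 -/
theorem gaps212 (ε : ℝ) (hε : 0 < ε) :
    ∀ᶠ x : ℝ in atTop, x ^ (1 - ε) ≤ (((Icc 1 ⌊x⌋₊).filter (fun n : ℕ =>
      Nat.nth Nat.Prime n ≤ x ∧ Nat.nth Nat.Prime (n + 1) - Nat.nth Nat.Prime n ≤ 212)).card : ℝ) :=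
  gaps212_of_count dhl45 ε hε

/-- one of the differences of an admissible 45-tuple is a gap between consecutive primes, often -/
theorem gap45 (a : Fin 45 → ℤ) (hinj : Function.Injective a)
    (hadm : ∀ p : ℕ, p.Prime → ∃ r : ℤ, ∀ i, ¬ (p : ℤ) ∣ r + a i) :
    ∃ i j, a i < a j ∧ ∀ ε : ℝ, 0 < ε → ∃ᶠ x : ℝ in atTop, x ^ (1 - ε) ≤ ((gapSet (a j - a i) x).ncard : ℝ) :=
  gap_of_admissible dhl45 a hinj hadm

/-- one of `2N, 4N, ..., 212N` is a gap between consecutive primes, often -/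
theorem multiple_gap106 (N : ℕ) (hN : 0 < N) :
    ∃ k : ℕ, 1 ≤ k ∧ k ≤ 106 ∧ ∀ ε : ℝ, 0 < ε → ∃ᶠ x : ℝ in atTop,
      x ^ (1 - ε) ≤ ((gapSet ((k : ℤ) * (2 * N)) x).ncard : ℝ) :=
  multiple_gap dhl45 N hN

/-- one of the differences of any 289 integers is a gap between consecutive primes, often -/
theorem difference_gap289 (S : Finset ℤ) (hS : 289 ≤ S.card) :
    ∃ a ∈ S, ∃ b ∈ S, a < b ∧ ∀ ε : ℝ, 0 < ε → ∃ᶠ x : ℝ in atTop,
      x ^ (1 - ε) ≤ ((gapSet (b - a) x).ncard : ℝ) :=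
  difference_gap dhl45 S hS

end Pool.Agent.Y826.ZC
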