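import Pool.Agent.Y826.ZG.Defs4

/-! Project Y826/ZC (job EXACT): exact patterns of primes in every admissible set of 45 shifts, from
`DHL[45,2]` for linear forms. -/

set_option autoImplicit false

open Finset Filter

namespace Pool.Agent.Y826.ZC

open Pool.Agent.H95R2.BG.LF Pool.Agent.Y826.ZG

/-- the integers `n ≤ x` with the exact pattern `B` of primes in the window `[n - R, n + R]` -/
def Pat (q : ℕ) (r : ℤ) (B : Finset ℤ) (R : ℕ) (x : ℝ) : Set ℕ :=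
  {n : ℕ | (n : ℝ) ≤ x ∧ (n : ℤ) ≡ r [ZMOD q] ∧
    ∀ y : ℤ, |y| ≤ R → ((∃ p : ℕ, p.Prime ∧ (p : ℤ) = n + y) ↔ y ∈ B)}

theorem Pat_finite (q : ℕ) (r : ℤ) (B : Finset ℤ) (R : ℕ) (x : ℝ) : (Pat q r B R x).Finite := by
  apply (Set.finite_Iic ⌊x⌋₊).subset
  rintro n ⟨hn, -⟩
  exact Nat.le_floor hn

theorem Pat_anti (q : ℕ) (r : ℤ) (B : Finset ℤ) {R R' : ℕ} (h : R ≤ R') (x : ℝ) :
    Pat q r B R' x ⊆ Pat q r B R x :=
  fun _ hn => ⟨hn.1, hn.2.1, fun y hy => hn.2.2 y (hy.trans (by exact_mod_cast h))⟩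

/-- the modulus and the residue class -/
theorem exact_forms (T : Finset ℤ) (q : ℕ) (r : ℤ) (hq : 0 < q)
    (hr : ∀ s ∈ T, IsCoprime (r + s) (q : ℤ)) (R : ℕ) (hR : ∀ s ∈ T, |s| ≤ R) :
    ∃ Q c : ℕ, 0 < Q ∧ R + 1 ≤ c ∧ (c : ℤ) ≡ r [ZMOD q] ∧ q ∣ Q ∧
      (∀ s ∈ T, ∀ p : ℕ, p.Prime → p ∣ Q → ¬ (p : ℤ) ∣ c + s) ∧
      ∀ m : ℕ, 1 ≤ m → ∀ y : ℤ, |y| ≤ R → y ∉ T →
        ¬ ∃ p : ℕ, p.Prime ∧ (p : ℤ) = ((Q * m + c : ℕ) : ℤ) + y := by
  classical
  set Y : Finset ℤ := (Finset.Icc (-(R : ℤ)) R).filter (fun y => y ∉ T) with hY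
  set p : ℤ → ℕ := fun y => Nat.nth Nat.Prime (q + 2 * R + 1 + (y + R).toNat) with hp
  have hpp : ∀ y, (p y).Prime := fun y => Nat.prime_nth_prime _
  have hpl : ∀ y, q + 2 * R + 1 < p y := fun y => by
    have := Nat.add_two_le_nth_prime (q + 2 * R + 1 + (y + R).toNat)
    show q + 2 * R + 1 < Nat.nth Nat.Prime (q + 2 * R + 1 + (y + R).toNat)
    omega
  have hYR : ∀ y ∈ Y, -(R : ℤ) ≤ y ∧ y ≤ R := by
    intro y hy
    rw [hY, Finset.mem_filter, Finset.mem_Icc] at hy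
    exact hy.1
  have hpinj : ∀ y ∈ Y, ∀ z ∈ Y, p y = p z → y = z := by
    intro y hy z hz h
    have h1 := Nat.nth_injective Nat.infinite_setOfPred_prime h
    have h2 := hYR y hy
    have h3 := hYR z hz
    omega
  have hcop : Set.Pairwise (Y : Set ℤ) (Function.onFun Nat.Coprime p) := fun y hy z hz hyz =>
    (Nat.coprime_primes (hpp y) (hpp z)).mpr fun e => hyz (hpinj y hy z hz e)
  obtain ⟨b, hb⟩ := Nat.chineseRemainderOfFinset (fun y => ((-y) % (p y : ℤ)).toNat) p Y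
    (fun i _ => (hpp i).ne_zero) hcop
  set P : ℕ := ∏ y ∈ Y, p y with hP
  have hqP : Nat.Coprime q P := by
    apply Nat.Coprime.prod_right
    intro y _
    rw [Nat.coprime_comm, (hpp y).coprime_iff_not_dvd]
    intro h
    have h1 := Nat.le_of_dvd hq h
    have h2 := hpl y
    omega
  obtain ⟨c1, hc1, hc1'⟩ := Nat.chineseRemainder hqP (r % (q : ℤ)).toNat b
  have hP0 : 0 < P := Finset.prod_pos fun y _ => (hpp y).pos
  set Q : ℕ := q * P with hQ
  have hQ0 : 0 < Q := Nat.mul_pos hq hP0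
  have hpP : ∀ y ∈ Y, p y ∣ P := fun y hy => Finset.dvd_prod_of_mem p hy
  have hpQ : ∀ y ∈ Y, p y ∣ Q := fun y hy => (hpP y hy).mul_left q
  set c : ℕ := c1 + Q * (R + 1) with hc
  have hcr : (c : ℤ) ≡ r [ZMOD q] := by
    have h1 : (c1 : ℤ) ≡ ((r % (q : ℤ)).toNat : ℕ) [ZMOD q] := Int.natCast_modEq_iff.2 hc1
    rw [Int.toNat_of_nonneg (Int.emod_nonneg _ (by exact_mod_cast hq.ne'))] at h1
    have h2 : (c1 : ℤ) ≡ r [ZMOD q] := h1.trans (Int.mod_modEq _ _)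
    rw [hc]
    push_cast
    have h3 : ((Q : ℤ) * (R + 1)) ≡ 0 [ZMOD q] := by
      rw [Int.modEq_zero_iff_dvd, hQ]
      push_cast
      exact ⟨P * (R + 1), by ring⟩
    simpa using h2.add h3
  have hcy : ∀ y ∈ Y, (p y : ℤ) ∣ c + y := by
    intro y hy
    have h1 : (c1 : ℤ) ≡ b [ZMOD p y] :=
      (Int.natCast_modEq_iff.2 hc1').of_dvd (Int.natCast_dvd_natCast.2 (hpP y hy))
    have h2 : (b : ℤ) ≡ (((-y) % (p y : ℤ)).toNat : ℕ) [ZMOD p y] :=
      Int.natCast_modEq_iff.2 (hb y hy)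
    rw [Int.toNat_of_nonneg (Int.emod_nonneg _ (by exact_mod_cast (hpp y).ne_zero))] at h2
    have h3 : (c1 : ℤ) ≡ -y [ZMOD p y] := (h1.trans h2).trans (Int.mod_modEq _ _)
    have h4 : (p y : ℤ) ∣ c1 + y := by
      have := h3.symm.dvd
      rwa [sub_neg_eq_add] at this
    have h5 : (p y : ℤ) ∣ (Q : ℤ) * (R + 1) :=
      (Int.natCast_dvd_natCast.2 (hpQ y hy)).mul_right _
    have h6 : ((c : ℕ) : ℤ) + y = (c1 + y) + (Q : ℤ) * (R + 1) := by
      rw [hc]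
      push_cast
      ring
    rw [h6]
    exact dvd_add h4 h5
  have hcR : R + 1 ≤ c := by
    have : 1 * (R + 1) ≤ Q * (R + 1) := Nat.mul_le_mul_right _ hQ0
    omega
  refine ⟨Q, c, hQ0, hcR, hcr, Dvd.intro _ rfl, ?_, ?_⟩
  · intro s hs l hl hlQ hdvd
    rcases (Nat.Prime.dvd_mul hl).1 (hQ ▸ hlQ) with h1 | h1
    · have h2 : (l : ℤ) ∣ (q : ℤ) := Int.natCast_dvd_natCast.2 h1
      have h3 : (l : ℤ) ∣ r - c := h2.trans hcr.dvd
      have h4 : (l : ℤ) ∣ r + s := by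
        have := dvd_add h3 hdvd
        rwa [show r - (c : ℤ) + (c + s) = r + s by ring] at this
      have h5 := (hr s hs).isUnit_of_dvd' h4 h2
      rw [Int.isUnit_iff] at h5
      have h6 := hl.two_le
      omega
    · obtain ⟨y, hy, hly⟩ := (Prime.dvd_finsetProd_iff hl.prime _).1 (hP ▸ h1)
      have h2 : l = p y := (Nat.prime_dvd_prime_iff_eq hl (hpp y)).1 hly
      rw [h2] at hdvd
      have h3 := dvd_sub hdvd (hcy y hy)
      rw [show (c : ℤ) + s - (c + y) = s - y by ring] at h3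
      have h4 : s - y = 0 := by
        apply Int.eq_zero_of_abs_lt_dvd h3
        have h5 := abs_le.1 (hR s hs)
        have h6 := hYR y hy
        have h7 := hpl y
        rw [abs_lt]
        constructor <;> omega
      rw [hY, Finset.mem_filter] at hy
      apply hy.2
      rwa [show y = s by omega]
  · rintro m hm y hyR hyT ⟨l, hl, hle⟩
    have hy : y ∈ Y := by
      rw [hY, Finset.mem_filter, Finset.mem_Icc]
      exact ⟨abs_le.1 hyR, hyT⟩
    have h1 : (p y : ℤ) ∣ l := by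
      rw [hle]
      push_cast
      rw [show (Q : ℤ) * m + c + y = Q * m + (c + y) by ring]
      exact dvd_add ((Int.natCast_dvd_natCast.2 (hpQ y hy)).mul_right _) (hcy y hy)
    have h2 : p y = l := (Nat.prime_dvd_prime_iff_eq (hpp y) hl).1 (Int.natCast_dvd_natCast.1 h1)
    have h3 : p y ≤ Q := Nat.le_of_dvd hQ0 (hpQ y hy)
    have h4 : Q * 1 ≤ Q * m := Nat.mul_le_mul_left _ hm
    have h5 := (abs_le.1 hyR).1
    have h6 : ((Q * 1 : ℕ) : ℤ) ≤ ((Q * m : ℕ) : ℤ) := by exact_mod_cast h4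
    have h7 : ((R + 1 : ℕ) : ℤ) ≤ c := by exact_mod_cast hcR
    have h8 : ((p y : ℕ) : ℤ) ≤ Q := by exact_mod_cast h3
    rw [← h2] at hle
    push_cast at hle h6 h7
    linarith

theorem exact_asy (ε : ℝ) (hε : 0 < ε) (C c : ℝ) (hc : 0 < c) :
    ∀ᶠ x : ℝ in atTop, C * x ^ (1 - ε) ≤ (x / c) ^ (1 - ε / 2) := by
  have t1 : Tendsto (fun x : ℝ => x ^ (ε / 2)) atTop atTop := tendsto_rpow_atTop (by positivity)
  filter_upwards [t1.eventually_ge_atTop (C * c ^ (1 - ε / 2)), eventually_gt_atTop (0 : ℝ)]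
    with x hx hx0
  have hcp : (0 : ℝ) < c ^ (1 - ε / 2) := Real.rpow_pos_of_pos hc _
  have hxp : (0 : ℝ) < x ^ (1 - ε) := Real.rpow_pos_of_pos hx0 _
  rw [Real.div_rpow hx0.le hc.le, le_div_iff₀ hcp]
  have e1 : x ^ (1 - ε / 2) = x ^ (1 - ε) * x ^ (ε / 2) := by
    rw [← Real.rpow_add hx0]; congr 1; ring
  rw [e1]
  calc C * x ^ (1 - ε) * c ^ (1 - ε / 2) = x ^ (1 - ε) * (C * c ^ (1 - ε / 2)) := by ring
    _ ≤ x ^ (1 - ε) * x ^ (ε / 2) := mul_le_mul_of_nonneg_left hx hxp.le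

theorem exact_core (hD : Dhl45L) (T : Finset ℤ) (hT : T.card = 45)
    (hadm : ∀ p : ℕ, p.Prime → ∃ r : ℤ, ∀ s ∈ T, ¬ (p : ℤ) ∣ r + s)
    (q : ℕ) (r : ℤ) (hq : 0 < q) (hr : ∀ s ∈ T, IsCoprime (r + s) (q : ℤ)) (R : ℕ)
    (hR : ∀ s ∈ T, |s| ≤ R) (ε : ℝ) (hε : 0 < ε) :
    ∀ᶠ x : ℝ in atTop, ∃ B ⊆ T, 2 ≤ B.card ∧ x ^ (1 - ε) ≤ ((Pat q r B R x).ncard : ℝ) := by
  classical
  obtain ⟨Q, c, hQ0, hcR, hcr, hqQ, hpr, hcomp⟩ := exact_forms T q r hq hr R hR
  set f := T.orderEmbOfFin hT with hf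
  have hmem : ∀ i, f i ∈ T := fun i => Finset.orderEmbOfFin_mem T hT i
  have hcast : ∀ i, (((c + f i).toNat : ℕ) : ℤ) = c + f i := by
    intro i
    apply Int.toNat_of_nonneg
    have h1 := (abs_le.1 (hR _ (hmem i))).1
    omega
  have hadmL : AdmissibleL (fun _ : Fin 45 => Q) (fun i => (c + f i).toNat) := by
    refine ⟨fun _ => hQ0, fun i j hij h => ?_, fun p hp => ?_⟩
    · have h1 : (c + f j).toNat = (c + f i).toNat := Nat.eq_of_mul_eq_mul_left hQ0 h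
      have h2 := hcast i
      have h3 := hcast j
      rw [h1, h2] at h3
      exact hij (f.injective (by linarith))
    · by_cases hpQ : p ∣ Q
      · refine ⟨0, fun i h => hpr _ (hmem i) p hp hpQ ?_⟩
        rw [Nat.mul_zero, zero_add] at h
        rw [← hcast i]
        exact_mod_cast h
      · obtain ⟨r', hr'⟩ := hadm p hp
        have h1 : IsCoprime (Q : ℤ) (p : ℤ) := by
          rw [Nat.isCoprime_iff_coprime, Nat.coprime_comm, hp.coprime_iff_not_dvd]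
          exact hpQ
        obtain ⟨u, v, huv⟩ := h1
        have hp0 : (p : ℤ) ≠ 0 := by exact_mod_cast hp.ne_zero
        refine ⟨((u * (r' - c)) % p).toNat, fun i h => hr' _ (hmem i) ?_⟩
        have h2 : (((u * (r' - c)) % p).toNat : ℤ) = (u * (r' - c)) % p :=
          Int.toNat_of_nonneg (Int.emod_nonneg _ hp0)
        have h3 : (p : ℤ) ∣ (Q : ℤ) * (((u * (r' - c)) % p).toNat : ℤ) + (((c + f i).toNat : ℕ) : ℤ) := by
          exact_mod_cast h
        rw [h2, hcast i, Int.emod_def] at h3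
        have h4 : r' + f i = (Q : ℤ) * (u * (r' - c) - p * (u * (r' - c) / p)) + (c + f i) +
            p * (v * (r' - c) + Q * (u * (r' - c) / p)) := by
          linear_combination (-(r' - (c : ℤ))) * huv
        rw [h4]
        exact dvd_add h3 (dvd_mul_right _ _)
  have hQr : (0 : ℝ) < 2 * (Q : ℝ) := by
    have : (0 : ℝ) < Q := by exact_mod_cast hQ0
    linarith
  have h2 : Tendsto (fun x : ℝ => x / (2 * (Q : ℝ))) atTop atTop := tendsto_id.atTop_div_const hQr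
  filter_upwards [exact_asy ε hε (2 ^ 45 + 1) (2 * (Q : ℝ)) hQr,
    h2.eventually (hD _ _ hadmL (ε / 2) (by positivity)), eventually_ge_atTop (2 * (c : ℝ)),
    eventually_gt_atTop (0 : ℝ)] with x hx1 hx2 hx3 hx4
  by_contra hcon
  push Not at hcon
  set G := goodL (fun _ : Fin 45 => Q) (fun i => (c + f i).toNat) (x / (2 * (Q : ℝ))) with hG
  set Bn : ℕ → Finset ℤ := fun m =>
    T.filter (fun s => ∃ p : ℕ, p.Prime ∧ (p : ℤ) = ((Q * m + c : ℕ) : ℤ) + s) with hBn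
  have hsum : ∀ (m : ℕ) (i : Fin 45), ((Q * m + (c + f i).toNat : ℕ) : ℤ) =
      ((Q * m + c : ℕ) : ℤ) + f i := by
    intro m i
    push_cast
    have := hcast i
    rw [this]
    ring
  have hmaps : ∀ m ∈ G, Bn m ∈ T.powerset.filter (fun B => 2 ≤ B.card) := by
    intro m hm
    rw [hG, goodL, Finset.mem_filter] at hm
    obtain ⟨-, i, j, hij, hi, hj⟩ := hm
    rw [Finset.mem_filter, Finset.mem_powerset]
    refine ⟨Finset.filter_subset _ _, ?_⟩
    have h3 : f i ∈ Bn m := Finset.mem_filter.2 ⟨hmem i, _, hi, hsum m i⟩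
    have h4 : f j ∈ Bn m := Finset.mem_filter.2 ⟨hmem j, _, hj, hsum m j⟩
    have h5 : f i ≠ f j := fun h => hij (f.injective h)
    exact Finset.one_lt_card.2 ⟨_, h3, _, h4, h5⟩
  have hfib : ∀ B ∈ T.powerset.filter (fun B => 2 ≤ B.card),
      ((G.filter (fun m => Bn m = B)).card : ℝ) ≤ x ^ (1 - ε) := by
    intro B hB
    rw [Finset.mem_filter, Finset.mem_powerset] at hB
    refine le_trans ?_ (hcon B hB.1 hB.2).le
    have h3 : ((G.filter (fun m => Bn m = B) : Finset ℕ) : Set ℕ).ncard ≤ (Pat q r B R x).ncard := by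
      refine Set.ncard_le_ncard_of_injOn (fun m => Q * m + c) ?_ ?_ (Pat_finite q r B R x)
      · intro m hm
        rw [Finset.mem_coe, Finset.mem_filter, hG, goodL, Finset.mem_filter, Finset.mem_Icc] at hm
        obtain ⟨⟨⟨hm1, hm2⟩, -⟩, hmB⟩ := hm
        refine ⟨?_, ?_, fun y hy => ?_⟩
        · have h4 : (m : ℝ) ≤ x / (2 * (Q : ℝ)) :=
            (Nat.le_floor_iff (by positivity)).1 hm2
          rw [le_div_iff₀ hQr] at h4
          push_cast
          linarith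
        · obtain ⟨k, hk⟩ := hqQ
          have h4 : ((Q : ℤ) * m) ≡ 0 [ZMOD q] := by
            rw [Int.modEq_zero_iff_dvd, hk]
            push_cast
            exact ⟨k * m, by ring⟩
          push_cast
          simpa using h4.add hcr
        · rw [← hmB]
          constructor
          · intro hp
            have hyT : y ∈ T := by
              by_contra hyT
              exact hcomp m hm1 y hy hyT hp
            exact Finset.mem_filter.2 ⟨hyT, hp⟩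
          · intro hy'
            exact (Finset.mem_filter.1 hy').2
      · intro m _ m' _ h
        have h4 : Q * m + c = Q * m' + c := h
        exact Nat.eq_of_mul_eq_mul_left hQ0 (by omega)
    rw [Set.ncard_coe_finset] at h3
    exact_mod_cast h3
  have hcard : (G.card : ℝ) ≤ 2 ^ 45 * x ^ (1 - ε) := by
    have h3 := Finset.card_eq_sum_card_fiberwise (s := G)
      (t := T.powerset.filter (fun B => 2 ≤ B.card)) (f := Bn) hmaps
    have h4 : (G.card : ℝ) ≤ ((T.powerset.filter (fun B => 2 ≤ B.card)).card : ℝ) * x ^ (1 - ε) := by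
      rw [h3]
      push_cast
      rw [← nsmul_eq_mul]
      exact Finset.sum_le_card_nsmul _ _ _ hfib
    refine h4.trans (mul_le_mul_of_nonneg_right ?_ (Real.rpow_nonneg hx4.le _))
    have h5 : (T.powerset.filter (fun B => 2 ≤ B.card)).card ≤ 2 ^ 45 := by
      refine (Finset.card_filter_le _ _).trans ?_
      rw [Finset.card_powerset, hT]
    exact_mod_cast h5
  have h6 : (0 : ℝ) < x ^ (1 - ε) := Real.rpow_pos_of_pos hx4 _
  have h7 := hx1.trans (hx2.trans hcard)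
  nlinarith

/-- exact patterns of primes in every admissible set of at least 45 shifts -/
theorem exact45_of (hD : Pool.Agent.Y826.ZG.Dhl45L) (S : Finset ℤ) (hS : 45 ≤ S.card)
    (hadm : ∀ p : ℕ, p.Prime → ∃ r : ℤ, ∀ s ∈ S, ¬ (p : ℤ) ∣ r + s) (q : ℕ) (r : ℤ) (hq : 0 < q)
    (hr : ∀ s ∈ S, IsCoprime (r + s) (q : ℤ)) :
    ∃ B : Finset ℤ, B ⊆ S ∧ 2 ≤ B.card ∧ ∀ (R : ℕ) (ε : ℝ), 0 < ε → ∃ᶠ x : ℝ in atTop,
      x ^ (1 - ε) ≤ (Set.ncard {n : ℕ | (n : ℝ) ≤ x ∧ (n : ℤ) ≡ r [ZMOD q] ∧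
        ∀ y : ℤ, |y| ≤ R → ((∃ p : ℕ, p.Prime ∧ (p : ℤ) = n + y) ↔ y ∈ B)} : ℝ) := by
  classical
  obtain ⟨T, hTS, hT⟩ := Finset.exists_subset_card_eq hS
  by_contra hcon
  push Not at hcon
  have h1 : ∀ B : Finset ℤ, ∃ (R : ℕ) (ε : ℝ), 0 < ε ∧ (B ⊆ S → 2 ≤ B.card →
      ∀ᶠ x : ℝ in atTop, ((Pat q r B R x).ncard : ℝ) < x ^ (1 - ε)) := by
    intro B
    by_cases h : B ⊆ S ∧ 2 ≤ B.card
    · obtain ⟨R, ε, hε, h2⟩ := hcon B h.1 h.2
      refine ⟨R, ε, hε, fun _ _ => ?_⟩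
      filter_upwards [h2] with x hx using hx
    · exact ⟨0, 1, one_pos, fun h2 h3 => absurd ⟨h2, h3⟩ h⟩
  choose Rf ef he hf using h1
  obtain ⟨R0, hR0⟩ : ∃ R0 : ℕ, ∀ s ∈ T, |s| ≤ R0 := by
    refine ⟨T.sup (fun s => s.natAbs), fun s hs => ?_⟩
    rw [Int.abs_eq_natAbs]
    exact_mod_cast Finset.le_sup (f := fun s : ℤ => s.natAbs) hs
  obtain ⟨R, hR1, hR2⟩ : ∃ R : ℕ, R0 ≤ R ∧ ∀ B ∈ T.powerset, Rf B ≤ R :=
    ⟨R0 + T.powerset.sup Rf, by omega, fun B hB => (Finset.le_sup (f := Rf) hB).trans (by omega)⟩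
  obtain ⟨B0, hB0, hmin⟩ := Finset.exists_min_image T.powerset ef ⟨∅, Finset.empty_mem_powerset _⟩
  have hcore := exact_core hD T hT
    (fun p hp => (hadm p hp).imp fun r' h s hs => h s (hTS hs)) q r hq (fun s hs => hr s (hTS hs)) R
    (fun s hs => (hR0 s hs).trans (by exact_mod_cast hR1)) (ef B0) (he B0)
  have hall : ∀ᶠ x : ℝ in atTop, ∀ B ∈ T.powerset, 2 ≤ B.card →
      ((Pat q r B (Rf B) x).ncard : ℝ) < x ^ (1 - ef B) := by
    rw [Filter.eventually_all_finset]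
    intro B hB
    by_cases h : 2 ≤ B.card
    · filter_upwards [hf B ((Finset.mem_powerset.1 hB).trans hTS) h] with x hx _ using hx
    · exact Filter.Eventually.of_forall fun x h' => absurd h' h
  obtain ⟨x, hx1, hx2, hx3⟩ := (hcore.and (hall.and (eventually_ge_atTop (1 : ℝ)))).exists
  obtain ⟨B, hBT, hB2, hBx⟩ := hx1
  have hB : B ∈ T.powerset := Finset.mem_powerset.2 hBT
  have h4 := hx2 B hB hB2
  have h5 : (Pat q r B R x).ncard ≤ (Pat q r B (Rf B) x).ncard :=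
    Set.ncard_le_ncard (Pat_anti q r B (hR2 B hB) x) (Pat_finite _ _ _ _ _)
  have h6 : ((Pat q r B R x).ncard : ℝ) ≤ ((Pat q r B (Rf B) x).ncard : ℝ) := by exact_mod_cast h5
  have h7 : x ^ (1 - ef B) ≤ x ^ (1 - ef B0) :=
    Real.rpow_le_rpow_of_exponent_le hx3 (by linarith [hmin B hB])
  linarith

end Pool.Agent.Y826.ZC
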